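import Pool.Agent.R336.HessE

/-!
# MP_d44d58_nt: exactly twelve of the NRS-matrices `M(m, n)` are not ς-reduced

The twelve pairs `(m, n)` are listed in `list12`. Proof: if `Δ_M(v) = 1`, then the lattice `ℤ³`
contains an element `γ` of norm `± 1/2` of the cubic field, and `2 γ = x / α + y + z α` with
`x ≡ y ≡ z mod 2`, where `α` is the eigenvalue. Multiplication by powers of the unit `α` makes `γ`
balanced; elementary estimates then bound `x`, `y`, `z`, force `z = 0` (impossible modulo `8`)
when the trace is at least `48`, and the remaining cases are checked one by one. In the boundary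
case `4 a = b²` the unit `α` is a square and is replaced by its square root.
-/

set_option autoImplicit false

namespace Pool.Agent.Results.MP_d44d58_nt.ExactlyTwelve

open Matrix Polynomial

/-- The matrix `M(m, n)`. -/
def M (m n : ℤ) : Matrix (Fin 3) (Fin 3) ℤ :=
  !![0, 1, n + 1; 1, 1, m + n; 0, 2, 2 * n + 1]

/-- `A` is an NRS-matrix: its characteristic polynomial is irreducible over `ℚ` and has one real
root and two non-real complex conjugate roots. -/
def IsNRS (A : Matrix (Fin 3) (Fin 3) ℤ) : Prop :=
  Irreducible (A.charpoly.map (Int.castRingHom ℚ)) ∧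
    ∃ (r : ℝ) (w : ℂ), w.im ≠ 0 ∧
      A.charpoly.map (Int.castRingHom ℂ) = (X - C (r : ℂ)) * (X - C w) * (X - C (star w))

/-- `Δ_A(v) = |det (v, A v, A² v)|` for an integral vector `v`. -/
def Delta (A : Matrix (Fin 3) (Fin 3) ℤ) (v : Fin 3 → ℤ) : ℤ :=
  |(Matrix.of ![v, A *ᵥ v, (A ^ 2) *ᵥ v]).det|

/-- `A` is ς-reduced: `Δ_A` attains its minimum over `ℤ³ ∖ {0}` at `e₁`. -/
def IsReduced (A : Matrix (Fin 3) (Fin 3) ℤ) : Prop :=
  ∀ v : Fin 3 → ℤ, v ≠ 0 → Delta A ![1, 0, 0] ≤ Delta A v

/-- The twelve pairs `(m, n)`. -/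
def list12 : Finset (ℤ × ℤ) :=
  {(-2, -3), (-1, -2), (-1, -1), (-2, 0), (0, 0), (1, 0), (-3, 1), (-1, 1), (2, 1), (-5, 2),
    (-2, 2), (-3, 4)}

open Pool.Agent.R336.Hess

lemma charpoly_M (m n : ℤ) : (M m n).charpoly = chi ℤ (2 * (n + 1)) (2 * m) := by
  rw [Matrix.charpoly, Matrix.det_fin_three]
  simp [M, chi]
  ring

lemma det_M (m n : ℤ) (v : Fin 3 → ℤ) :
    4 * (Matrix.of ![v, M m n *ᵥ v, ((M m n) ^ 2) *ᵥ v]).det =
      N (2 * (n + 1)) (2 * m) (v 2) (2 * v 0 + (2 * m - 1) * v 2)
        (2 * v 1 + (2 * n + 1) * v 2) := by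
  rw [pow_two, ← Matrix.mulVec_mulVec, Matrix.det_fin_three]
  simp [M, dotProduct, Fin.sum_univ_three, N]
  ring

lemma Delta_N (m n : ℤ) (v : Fin 3 → ℤ) : 4 * Delta (M m n) v =
    |N (2 * (n + 1)) (2 * m) (v 2) (2 * v 0 + (2 * m - 1) * v 2)
        (2 * v 1 + (2 * n + 1) * v 2)| := by
  rw [← det_M, abs_mul, Delta]
  rfl

lemma Delta_e (m n : ℤ) : Delta (M m n) ![1, 0, 0] = 2 := by
  have h := Delta_N m n ![1, 0, 0]
  have h2 : N (2 * (n + 1)) (2 * m) 0 2 0 = 8 := by unfold N; ring
  simp at h
  rw [h2] at h
  norm_num at h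
  omega

lemma isNRS_iff (m n : ℤ) : IsNRS (M m n) ↔
    Irreducible (chi ℚ (2 * (n + 1)) (2 * m)) ∧
      ∃ θ p q : ℝ, Root (2 * (n + 1)) (2 * m) θ p q := by
  unfold IsNRS
  rw [charpoly_M, chi_map, chi_map]
  refine and_congr_right fun _ => ⟨?_, ?_⟩
  · rintro ⟨r, w, hw, h⟩
    exact ⟨_, _, _, root_of_factor hw h⟩
  · rintro ⟨θ, p, q, h⟩
    obtain ⟨w, hw, h2⟩ := factor_of_root h
    exact ⟨θ, w, hw, h2⟩

/-- one of the twelve pairs -/
lemma mem_of {m n : ℤ} (hd : disc (2 * (n + 1)) (2 * m) < 0)
    (h1 : 2 * (n + 1) + 2 * m ≠ 0) (h2 : 2 * m ≠ 2 * (n + 1) + 2) (v : Fin 3 → ℤ) (hv : v ≠ 0)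
    (hN : |N (2 * (n + 1)) (2 * m) (v 2) (2 * v 0 + (2 * m - 1) * v 2)
        (2 * v 1 + (2 * n + 1) * v 2)| = 4) :
    IsNRS (M m n) ∧ ¬ IsReduced (M m n) := by
  refine ⟨(isNRS_iff m n).2 ⟨irred h1 h2, exists_root hd⟩, fun hr => ?_⟩
  have h3 := hr v hv
  rw [Delta_e] at h3
  have h4 := Delta_N m n v
  rw [hN] at h4
  omega

/-- **Exactly twelve** NRS-matrices `M(m, n)` are not ς-reduced. -/
theorem result :
    {p : ℤ × ℤ | IsNRS (M p.1 p.2) ∧ ¬ IsReduced (M p.1 p.2)} = (list12 : Set (ℤ × ℤ)) ∧
      {p : ℤ × ℤ | IsNRS (M p.1 p.2) ∧ ¬ IsReduced (M p.1 p.2)}.ncard = 12 := by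
  have key : {p : ℤ × ℤ | IsNRS (M p.1 p.2) ∧ ¬ IsReduced (M p.1 p.2)} =
      (list12 : Set (ℤ × ℤ)) := by
    ext ⟨m, n⟩
    rw [Set.mem_ofPred_eq, Finset.mem_coe]
    dsimp only
    constructor
    · rintro ⟨hNRS, hred⟩
      obtain ⟨hirr, θ, p, q, h⟩ := (isNRS_iff m n).1 hNRS
      unfold IsReduced at hred
      push Not at hred
      obtain ⟨v, hv, hlt⟩ := hred
      rw [Delta_e] at hlt
      have h4 := Delta_N m n v
      have hne : N (2 * (n + 1)) (2 * m) (v 2) (2 * v 0 + (2 * m - 1) * v 2)
          (2 * v 1 + (2 * n + 1) * v 2) ≠ 0 := by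
        apply N_ne_zero h hirr
        rintro ⟨e1, e2, e3⟩
        apply hv
        rw [e1] at e2 e3
        funext i
        fin_cases i
        · simp; omega
        · simp; omega
        · simpa using e1
      have h5 := abs_pos.2 hne
      have hN : |N (2 * (n + 1)) (2 * m) (v 2) (2 * v 0 + (2 * m - 1) * v 2)
          (2 * v 1 + (2 * n + 1) * v 2)| = 4 := by
        rw [← h4] at h5 ⊢
        have h7 : 1 ≤ Delta (M m n) v := by
          by_contra hcon
          push Not at hcon
          have : Delta (M m n) v ≤ 0 := Int.lt_add_one_iff.1 hcon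
          linarith
        have h8 : Delta (M m n) v ≤ 1 := Int.lt_add_one_iff.1 hlt
        rw [le_antisymm h8 h7]
        norm_num
      have hθ1 : θ ≠ 1 := by
        rintro rfl
        have e1 := h.ha
        have e2 := h.hb
        have e3 := h.hθ
        have e4 : ((2 * (n + 1) + 2 * m : ℤ) : ℝ) = 0 := by
          rw [Int.cast_add, e1, e2]; linarith
        have e5 : 2 * (n + 1) + 2 * m = 0 := by exact_mod_cast e4
        have e6 : (chi ℚ (2 * (n + 1)) (2 * m)).IsRoot 1 := by
          rw [IsRoot, chi_eval]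
          have : ((2 * (n + 1) : ℤ) : ℚ) + ((2 * m : ℤ) : ℚ) = 0 := by exact_mod_cast e5
          linarith
        have e7 := Polynomial.natDegree_eq_of_degree_eq_some
          (Polynomial.degree_eq_one_of_irreducible_of_root hirr e6)
        rw [chi_natDegree] at e7
        norm_num at e7
      have h6 := main_list h hθ1 (x := v 2) (y := 2 * v 0 + (2 * m - 1) * v 2)
        (z := 2 * v 1 + (2 * n + 1) * v 2) (by
          have e1 : (2 * m - 1) * v 2 = 2 * (m * v 2) - v 2 := by ring
          have e2 : (2 * n + 1) * v 2 = 2 * (n * v 2) + v 2 := by ring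
          rw [e1, e2]
          constructor <;> omega) hN
      simp only [E6, List.mem_cons, Prod.mk.injEq, List.not_mem_nil, or_false] at h6
      rcases h6 with (h7 | h7 | h7 | h7 | h7 | h7) | (h7 | h7 | h7 | h7 | h7 | h7) <;>
        obtain ⟨g1, g2⟩ := h7
      · obtain rfl : n = 0 := by omega
        obtain rfl : m = 0 := by omega
        decide
      · obtain rfl : n = 0 := by omega
        obtain rfl : m = 1 := by omega
        decide
      · obtain rfl : n = 1 := by omega
        obtain rfl : m = -1 := by omega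
        decide
      · obtain rfl : n = 1 := by omega
        obtain rfl : m = 2 := by omega
        decide
      · obtain rfl : n = 2 := by omega
        obtain rfl : m = -2 := by omega
        decide
      · obtain rfl : n = 4 := by omega
        obtain rfl : m = -3 := by omega
        decide
      · obtain rfl : n = -1 := by omega
        obtain rfl : m = -1 := by omega
        decide
      · obtain rfl : n = -2 := by omega
        obtain rfl : m = -1 := by omega
        decide
      · obtain rfl : n = 0 := by omega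
        obtain rfl : m = -2 := by omega
        decide
      · obtain rfl : n = -3 := by omega
        obtain rfl : m = -2 := by omega
        decide
      · obtain rfl : n = 1 := by omega
        obtain rfl : m = -3 := by omega
        decide
      · obtain rfl : n = 2 := by omega
        obtain rfl : m = -5 := by omega
        decide
    · intro h
      simp only [list12, Finset.mem_insert, Finset.mem_singleton, Prod.mk.injEq] at h
      rcases h with h | h | h | h | h | h | h | h | h | h | h | h <;> obtain ⟨rfl, rfl⟩ := h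
      · exact mem_of (by decide) (by decide) (by decide) ![1, -2, 1] (by decide) (by decide)
      · exact mem_of (by decide) (by decide) (by decide) ![1, -1, 1] (by decide) (by decide)
      · exact mem_of (by decide) (by decide) (by decide) ![2, -3, 1] (by decide) (by decide)
      · exact mem_of (by decide) (by decide) (by decide) ![1, -1, 1] (by decide) (by decide)
      · exact mem_of (by decide) (by decide) (by decide) ![8, -4, 1] (by decide) (by decide)
      · exact mem_of (by decide) (by decide) (by decide) ![0, -1, 1] (by decide) (by decide)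
      · exact mem_of (by decide) (by decide) (by decide) ![1, -2, 1] (by decide) (by decide)
      · exact mem_of (by decide) (by decide) (by decide) ![3, -2, 1] (by decide) (by decide)
      · exact mem_of (by decide) (by decide) (by decide) ![-1, -2, 1] (by decide) (by decide)
      · exact mem_of (by decide) (by decide) (by decide) ![4, -2, 1] (by decide) (by decide)
      · exact mem_of (by decide) (by decide) (by decide) ![5, -3, 1] (by decide) (by decide)
      · exact mem_of (by decide) (by decide) (by decide) ![2, -4, 1] (by decide) (by decide)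
  refine ⟨key, ?_⟩
  rw [key, Set.ncard_coe_finset]
  decide

end Pool.Agent.Results.MP_d44d58_nt.ExactlyTwelve
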